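import Pool.Agent.Y14.EC.Gam

set_option autoImplicit false
set_option linter.unusedSectionVars false

namespace Pool.Agent.Y14.EC

open Finset MeasureTheory intervalIntegral Set

/-- The Taylor coefficients (derivatives at `0`) of `1 / Γ(1 - s)`. -/
noncomputable def Dk (k : ℕ) : ℝ := iteratedDeriv k (fun s : ℝ => (Real.Gamma (1 - s))⁻¹) 0

lemma taylor_bound (n : ℕ) : ∃ C : ℝ, 0 ≤ C ∧ ∀ s ∈ Icc (0 : ℝ) 1,
    |ff s - ∑ k ∈ range (n + 1), Dk k / (k.factorial : ℝ) * s ^ k| ≤ C * s ^ (n + 1) := by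
  obtain ⟨C, hC⟩ := exists_taylor_mean_remainder_bound (f := ff) (a := 0) (b := 1) (n := n)
    zero_le_one (ff_contDiff.contDiffOn)
  refine ⟨|C|, abs_nonneg C, fun s hs => ?_⟩
  have h := hC s hs
  rw [taylor_within_apply, Real.norm_eq_abs] at h
  have e : ∑ k ∈ range (n + 1), ((k.factorial : ℝ)⁻¹ * (s - 0) ^ k) •
      iteratedDerivWithin k ff (Icc 0 1) 0 =
      ∑ k ∈ range (n + 1), Dk k / (k.factorial : ℝ) * s ^ k := by
    refine Finset.sum_congr rfl fun k _ => ?_
    rw [iteratedDerivWithin_eq_iteratedDeriv (uniqueDiffOn_Icc zero_lt_one)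
      ff_contDiff.contDiffAt (left_mem_Icc.mpr zero_le_one), sub_zero, smul_eq_mul]
    unfold Dk
    have : iteratedDeriv k ff 0 = iteratedDeriv k (fun s : ℝ => (Real.Gamma (1 - s))⁻¹) 0 := rfl
    rw [this]
    field_simp
  rw [e, sub_zero] at h
  refine h.trans ?_
  have : 0 ≤ s ^ (n + 1) := pow_nonneg hs.1 _
  exact mul_le_mul_of_nonneg_right (le_abs_self C) this

lemma int_full (d : ℕ) {a : ℝ} (ha : 0 < a) :
    IntegrableOn (fun t : ℝ => t ^ d * Real.exp (-(a * t))) (Set.Ioi 0) ∧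
    ∫ t in Set.Ioi (0 : ℝ), t ^ d * Real.exp (-(a * t)) = (d.factorial : ℝ) / a ^ (d + 1) := by
  constructor
  · have h := integrableOn_rpow_mul_exp_neg_mul_rpow (p := 1) (s := (d : ℝ)) (b := a)
      (by have : (0 : ℝ) ≤ d := Nat.cast_nonneg d
          linarith) one_pos ha
    refine h.congr_fun ?_ measurableSet_Ioi
    intro t _
    simp only [Real.rpow_one, Real.rpow_natCast, neg_mul]
  · have h := Real.integral_rpow_mul_exp_neg_mul_Ioi (a := (d : ℝ) + 1) (r := a) (by positivity) ha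
    have h2 : ∫ t in Set.Ioi (0 : ℝ), t ^ d * Real.exp (-(a * t)) =
        ∫ t in Set.Ioi (0 : ℝ), t ^ ((d : ℝ) + 1 - 1) * Real.exp (-(a * t)) := by
      congr 1
      funext t
      rw [add_sub_cancel_right, Real.rpow_natCast]
    rw [h2, h, Real.Gamma_nat_eq_factorial]
    have h3 : (1 / a) ^ ((d : ℝ) + 1) = (1 / a) ^ (d + 1) := by
      rw [← Real.rpow_natCast]
      push_cast
      rfl
    rw [h3, one_div, inv_pow]
    field_simp

/-- The integral over `[0,1]`. -/
lemma int_unit (d : ℕ) {L : ℝ} (hL : 1 ≤ L) :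
    |(∫ t in (0 : ℝ)..1, t ^ d * Real.exp (-(L * t))) - (d.factorial : ℝ) / L ^ (d + 1)| ≤
      (d.factorial : ℝ) * Real.exp 1 * Real.exp (-L) := by
  have hL0 : 0 < L := by linarith
  obtain ⟨h1, h2⟩ := int_full d hL0
  obtain ⟨h3, h4⟩ := int_full d one_pos
  have hsplit : Set.Ioi (0 : ℝ) = Set.Ioc 0 1 ∪ Set.Ioi 1 := (Set.Ioc_union_Ioi_eq_Ioi zero_le_one).symm
  have hI1 : IntegrableOn (fun t : ℝ => t ^ d * Real.exp (-(L * t))) (Set.Ioc 0 1) :=
    h1.mono_set Set.Ioc_subset_Ioi_self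
  have hI2 : IntegrableOn (fun t : ℝ => t ^ d * Real.exp (-(L * t))) (Set.Ioi 1) :=
    h1.mono_set (Set.Ioi_subset_Ioi zero_le_one)
  have hI3 : IntegrableOn (fun t : ℝ => t ^ d * Real.exp (-(1 * t))) (Set.Ioi 1) :=
    h3.mono_set (Set.Ioi_subset_Ioi zero_le_one)
  have hsum : ∫ t in Set.Ioi (0 : ℝ), t ^ d * Real.exp (-(L * t)) =
      (∫ t in Set.Ioc (0 : ℝ) 1, t ^ d * Real.exp (-(L * t))) +
      ∫ t in Set.Ioi (1 : ℝ), t ^ d * Real.exp (-(L * t)) := by
    rw [hsplit]
    exact setIntegral_union (Set.Ioc_disjoint_Ioi le_rfl) measurableSet_Ioi hI1 hI2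
  have htail0 : 0 ≤ ∫ t in Set.Ioi (1 : ℝ), t ^ d * Real.exp (-(L * t)) := by
    apply setIntegral_nonneg measurableSet_Ioi
    intro t ht
    have : (0 : ℝ) < t := lt_trans one_pos ht
    positivity
  have htail : ∫ t in Set.Ioi (1 : ℝ), t ^ d * Real.exp (-(L * t)) ≤
      (d.factorial : ℝ) * Real.exp 1 * Real.exp (-L) := by
    have a1 : ∫ t in Set.Ioi (1 : ℝ), t ^ d * Real.exp (-(L * t)) ≤
        ∫ t in Set.Ioi (1 : ℝ), Real.exp (1 - L) * (t ^ d * Real.exp (-(1 * t))) := by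
      apply setIntegral_mono_on hI2 (hI3.const_mul _) measurableSet_Ioi
      intro t ht
      have ht1 : (1 : ℝ) < t := ht
      have ht0 : (0 : ℝ) < t := by linarith
      have e : Real.exp (1 - L) * (t ^ d * Real.exp (-(1 * t))) =
          t ^ d * Real.exp ((1 - L) + -(1 * t)) := by
        rw [Real.exp_add]
        ring
      rw [e]
      apply mul_le_mul_of_nonneg_left _ (by positivity)
      apply Real.exp_le_exp.mpr
      nlinarith
    rw [MeasureTheory.integral_const_mul] at a1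
    have a2 : ∫ t in Set.Ioi (1 : ℝ), t ^ d * Real.exp (-(1 * t)) ≤ (d.factorial : ℝ) := by
      have a3 : ∫ t in Set.Ioi (1 : ℝ), t ^ d * Real.exp (-(1 * t)) ≤
          ∫ t in Set.Ioi (0 : ℝ), t ^ d * Real.exp (-(1 * t)) := by
        apply setIntegral_mono_set h3
        · filter_upwards [ae_restrict_mem measurableSet_Ioi] with t ht
          have : (0 : ℝ) < t := ht
          positivity
        · exact (Set.Ioi_subset_Ioi zero_le_one).eventuallyLE
      rw [h4, one_pow, div_one] at a3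
      exact a3
    calc _ ≤ Real.exp (1 - L) * ∫ t in Set.Ioi (1 : ℝ), t ^ d * Real.exp (-(1 * t)) := a1
      _ ≤ Real.exp (1 - L) * (d.factorial : ℝ) :=
          mul_le_mul_of_nonneg_left a2 (Real.exp_pos _).le
      _ = _ := by
          have : (1 : ℝ) - L = 1 + -L := by ring
          rw [this, Real.exp_add]
          ring
  rw [intervalIntegral.integral_of_le zero_le_one, ← h2, hsum, abs_le]
  constructor <;> linarith

lemma exp_neg_le (p : ℕ) {L : ℝ} (hL : 1 ≤ L) :
    Real.exp (-L) ≤ (p.factorial : ℝ) / L ^ p := by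
  have hL0 : 0 < L := by linarith
  have h := Real.pow_div_factorial_le_exp L hL0.le p
  rw [Real.exp_neg, inv_eq_one_div, div_le_div_iff₀ (Real.exp_pos _) (by positivity)]
  rw [div_le_iff₀ (by positivity)] at h
  linarith

/-- The asymptotic expansion of the integral. -/
lemma expansion (n : ℕ) : ∃ C : ℝ, 0 ≤ C ∧ ∀ L : ℝ, 1 ≤ L →
    |(∫ s in (0 : ℝ)..1, s * (Real.exp (-(L * s)) * ff s)) -
      ∑ k ∈ range (n + 1), ((k : ℝ) + 1) * Dk k / L ^ (k + 2)| ≤ C / L ^ (n + 3) := by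
  obtain ⟨C₀, hC₀, hT⟩ := taylor_bound n
  -- the integral of the Taylor polynomial
  set B : ℝ := ∑ k ∈ range (n + 1), |Dk k| / (k.factorial : ℝ) * (((k + 1).factorial : ℝ) * Real.exp 1)
    with hB
  have hB0 : 0 ≤ B := by
    rw [hB]
    apply Finset.sum_nonneg
    intro k _
    positivity
  refine ⟨C₀ * ((n + 2).factorial : ℝ) + C₀ * (((n + 2).factorial : ℝ) * Real.exp 1 *
    ((n + 3).factorial : ℝ)) + B * ((n + 3).factorial : ℝ), by positivity, fun L hL => ?_⟩
  have hL0 : 0 < L := by linarith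
  have hcexp : Continuous fun s : ℝ => Real.exp (-(L * s)) := by fun_prop
  have c1 : Continuous fun s : ℝ => s * (Real.exp (-(L * s)) * ff s) :=
    continuous_id.mul (hcexp.mul ff_continuous)
  have c2 : Continuous fun s : ℝ => s * (Real.exp (-(L * s)) *
      ∑ k ∈ range (n + 1), Dk k / (k.factorial : ℝ) * s ^ k) := by fun_prop
  have c3 : Continuous fun s : ℝ => C₀ * (s ^ (n + 2) * Real.exp (-(L * s))) := by fun_prop
  -- first difference
  have d1 : |(∫ s in (0 : ℝ)..1, s * (Real.exp (-(L * s)) * ff s)) -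
      ∫ s in (0 : ℝ)..1, s * (Real.exp (-(L * s)) *
        ∑ k ∈ range (n + 1), Dk k / (k.factorial : ℝ) * s ^ k)| ≤
      C₀ * ∫ s in (0 : ℝ)..1, s ^ (n + 2) * Real.exp (-(L * s)) := by
    rw [← intervalIntegral.integral_sub (c1.intervalIntegrable _ _) (c2.intervalIntegrable _ _),
      ← intervalIntegral.integral_const_mul]
    refine (intervalIntegral.abs_integral_le_integral_abs zero_le_one).trans ?_
    apply intervalIntegral.integral_mono_on zero_le_one
    · exact ((c1.sub c2).abs).intervalIntegrable _ _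
    · exact c3.intervalIntegrable _ _
    · intro s hs
      have h := hT s hs
      have hs0 := hs.1
      have e : s * (Real.exp (-(L * s)) * ff s) - s * (Real.exp (-(L * s)) *
          ∑ k ∈ range (n + 1), Dk k / (k.factorial : ℝ) * s ^ k) =
          (s * Real.exp (-(L * s))) *
            (ff s - ∑ k ∈ range (n + 1), Dk k / (k.factorial : ℝ) * s ^ k) := by ring
      rw [e, abs_mul, abs_of_nonneg (by positivity : 0 ≤ s * Real.exp (-(L * s)))]
      calc _ ≤ (s * Real.exp (-(L * s))) * (C₀ * s ^ (n + 1)) :=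
            mul_le_mul_of_nonneg_left h (by positivity)
        _ = _ := by ring
  have d2 : ∫ s in (0 : ℝ)..1, s ^ (n + 2) * Real.exp (-(L * s)) ≤
      ((n + 2).factorial : ℝ) / L ^ (n + 3) +
        ((n + 2).factorial : ℝ) * Real.exp 1 * Real.exp (-L) := by
    have := (abs_le.mp (int_unit (n + 2) hL)).2
    linarith
  -- second difference
  have d3 : ∫ s in (0 : ℝ)..1, s * (Real.exp (-(L * s)) *
      ∑ k ∈ range (n + 1), Dk k / (k.factorial : ℝ) * s ^ k) =
      ∑ k ∈ range (n + 1), Dk k / (k.factorial : ℝ) *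
        ∫ s in (0 : ℝ)..1, s ^ (k + 1) * Real.exp (-(L * s)) := by
    simp_rw [← intervalIntegral.integral_const_mul]
    rw [← intervalIntegral.integral_finsetSum]
    · congr 1
      funext s
      rw [Finset.mul_sum, Finset.mul_sum]
      refine Finset.sum_congr rfl fun k _ => ?_
      ring
    · intro k _
      apply Continuous.intervalIntegrable
      fun_prop
  have d4 : |(∑ k ∈ range (n + 1), Dk k / (k.factorial : ℝ) *
        ∫ s in (0 : ℝ)..1, s ^ (k + 1) * Real.exp (-(L * s))) -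
      ∑ k ∈ range (n + 1), ((k : ℝ) + 1) * Dk k / L ^ (k + 2)| ≤ B * Real.exp (-L) := by
    rw [← Finset.sum_sub_distrib, hB, Finset.sum_mul]
    refine (Finset.abs_sum_le_sum_abs _ _).trans (Finset.sum_le_sum fun k _ => ?_)
    have e : Dk k / (k.factorial : ℝ) * (∫ s in (0 : ℝ)..1, s ^ (k + 1) * Real.exp (-(L * s))) -
        ((k : ℝ) + 1) * Dk k / L ^ (k + 2) = Dk k / (k.factorial : ℝ) *
        ((∫ s in (0 : ℝ)..1, s ^ (k + 1) * Real.exp (-(L * s))) -
          ((k + 1).factorial : ℝ) / L ^ (k + 1 + 1)) := by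
      rw [Nat.factorial_succ]
      have : (k.factorial : ℝ) ≠ 0 := by positivity
      push_cast
      field_simp
    rw [e, abs_mul, abs_div, abs_of_pos (by positivity : (0 : ℝ) < k.factorial), mul_assoc]
    apply mul_le_mul_of_nonneg_left _ (by positivity)
    exact int_unit (k + 1) hL
  have hexp := exp_neg_le (n + 3) hL
  have f1 : C₀ * (((n + 2).factorial : ℝ) * Real.exp 1 * Real.exp (-L)) ≤
      C₀ * (((n + 2).factorial : ℝ) * Real.exp 1 * (((n + 3).factorial : ℝ) / L ^ (n + 3))) :=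
    mul_le_mul_of_nonneg_left (mul_le_mul_of_nonneg_left hexp (by positivity)) hC₀
  have f2 : B * Real.exp (-L) ≤ B * (((n + 3).factorial : ℝ) / L ^ (n + 3)) :=
    mul_le_mul_of_nonneg_left hexp hB0
  have f3 := mul_le_mul_of_nonneg_left d2 hC₀
  rw [d3] at d1
  have tri := abs_sub_le (∫ s in (0 : ℝ)..1, s * (Real.exp (-(L * s)) * ff s))
    (∑ k ∈ range (n + 1), Dk k / (k.factorial : ℝ) *
        ∫ s in (0 : ℝ)..1, s ^ (k + 1) * Real.exp (-(L * s)))
    (∑ k ∈ range (n + 1), ((k : ℝ) + 1) * Dk k / L ^ (k + 2))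
  calc _ ≤ _ := tri
    _ ≤ C₀ * (((n + 2).factorial : ℝ) / L ^ (n + 3)) +
        C₀ * (((n + 2).factorial : ℝ) * Real.exp 1 * (((n + 3).factorial : ℝ) / L ^ (n + 3))) +
        B * (((n + 3).factorial : ℝ) / L ^ (n + 3)) := by linarith
    _ = _ := by ring

lemma Dk_zero : Dk 0 = 1 := by
  unfold Dk
  simp

lemma Dk_one : Dk 1 = -Real.eulerMascheroniConstant := by
  unfold Dk
  rw [iteratedDeriv_one]
  have h1 : HasDerivAt Real.Gamma (-Real.eulerMascheroniConstant) 1 := Real.hasDerivAt_Gamma_one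
  have h2 : HasDerivAt (fun s : ℝ => 1 - s) (-1) 0 := by
    simpa using (hasDerivAt_id (0 : ℝ)).const_sub 1
  have h1' : HasDerivAt Real.Gamma (-Real.eulerMascheroniConstant) (1 - 0) := by
    rw [sub_zero]
    exact h1
  have h3 := h1'.comp (0 : ℝ) h2
  have h4 : (Real.Gamma ∘ fun s : ℝ => 1 - s) 0 ≠ 0 := by
    simp
  have h5 := h3.inv h4
  have h6 := h5.deriv
  have h7 : (fun s : ℝ => (Real.Gamma (1 - s))⁻¹) = (Real.Gamma ∘ fun s : ℝ => 1 - s)⁻¹ := by
    funext s
    rfl
  rw [h7, h6]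
  simp

end Pool.Agent.Y14.EC
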