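import Mathlib

set_option autoImplicit false
set_option linter.unusedSectionVars false

namespace Pool.Agent.Y14.EC

open Finset MeasureTheory intervalIntegral Set

/-- `1 / Γ(1 - s)`. -/
noncomputable def ff (s : ℝ) : ℝ := (Real.Gamma (1 - s))⁻¹

lemma ff_nonneg {s : ℝ} (hs : s ≤ 1) : 0 ≤ ff s := by
  unfold ff
  rw [inv_nonneg]
  rcases eq_or_lt_of_le hs with h | h
  · rw [h, sub_self, Real.Gamma_zero]
  · exact (Real.Gamma_pos_of_pos (by linarith)).le

lemma ff_contDiff {n : WithTop ℕ∞} : ContDiff ℝ n ff := by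
  have h1 : ContDiff ℂ n (fun z : ℂ => (Complex.Gamma z)⁻¹) :=
    Complex.differentiable_one_div_Gamma.contDiff
  have h2 : ContDiff ℝ n (fun z : ℂ => (Complex.Gamma z)⁻¹) := h1.restrict_scalars ℝ
  have h3 : ContDiff ℝ n (fun s : ℝ => ((1 - s : ℝ) : ℂ)) :=
    Complex.ofRealCLM.contDiff.comp (contDiff_const.sub contDiff_id)
  have h4 : ContDiff ℝ n (fun s : ℝ => (Complex.Gamma ((1 - s : ℝ) : ℂ))⁻¹) := h2.comp h3
  have h5 : ContDiff ℝ n (fun s : ℝ => ((Complex.Gamma ((1 - s : ℝ) : ℂ))⁻¹).re) :=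
    Complex.reCLM.contDiff.comp h4
  have h6 : ff = fun s : ℝ => ((Complex.Gamma ((1 - s : ℝ) : ℂ))⁻¹).re := by
    funext s
    unfold ff
    rw [Complex.Gamma_ofReal, ← Complex.ofReal_inv, Complex.ofReal_re]
  rw [h6]
  exact h5

lemma ff_continuous : Continuous ff := (ff_contDiff (n := 0)).continuous

lemma Gamma_prod (n : ℕ) {s : ℝ} (hs : s < 1) :
    Real.Gamma ((n : ℝ) + 1 - s) = (∏ b ∈ range n, ((b : ℝ) + 1 - s)) * Real.Gamma (1 - s) := by
  induction n with
  | zero => simp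
  | succ n ih =>
    have hn : (0 : ℝ) ≤ n := Nat.cast_nonneg n
    have h1 : ((n + 1 : ℕ) : ℝ) + 1 - s = ((n : ℝ) + 1 - s) + 1 := by
      push_cast
      ring
    rw [h1, Real.Gamma_add_one (by linarith : (0 : ℝ) < (n : ℝ) + 1 - s).ne', ih,
      Finset.prod_range_succ]
    ring

/-- Upper bound for the quotient of Gamma values. -/
lemma Gamma_upper {n : ℕ} (hn : 1 ≤ n) {s : ℝ} (hs : 0 ≤ s) (hs1 : s ≤ 1) :
    Real.Gamma ((n : ℝ) + 1 - s) ≤ (n : ℝ) ^ (-s) * (n.factorial : ℝ) := by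
  have hn0 : (0 : ℝ) < n := by exact_mod_cast hn
  have hG : Real.Gamma ((n : ℝ) + 1) = n.factorial := Real.Gamma_nat_eq_factorial n
  have hG' : Real.Gamma (n : ℝ) = n.factorial / n := by
    rw [← hG, Real.Gamma_add_one hn0.ne']
    field_simp
  have hf : (0 : ℝ) < n.factorial := by positivity
  rcases eq_or_lt_of_le hs with h0 | h0
  · rw [← h0]
    simp [hG]
  rcases eq_or_lt_of_le hs1 with h1 | h1
  · rw [h1, add_sub_cancel_right, hG', Real.rpow_neg hn0.le, Real.rpow_one]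
    apply le_of_eq
    ring
  have h := Real.Gamma_mul_add_mul_le_rpow_Gamma_mul_rpow_Gamma (s := (n : ℝ) + 1) (t := n)
    (a := 1 - s) (b := s) (by linarith) hn0 (by linarith) h0 (by ring)
  have e : (1 - s) * ((n : ℝ) + 1) + s * n = (n : ℝ) + 1 - s := by ring
  rw [e, hG, hG'] at h
  refine h.trans (le_of_eq ?_)
  rw [Real.div_rpow hf.le hn0.le, Real.rpow_neg hn0.le, ← mul_div_assoc, ← Real.rpow_add hf]
  have : 1 - s + s = 1 := by ring
  rw [this, Real.rpow_one]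
  field_simp

/-- Lower bound for the quotient of Gamma values. -/
lemma Gamma_lower (n : ℕ) {s : ℝ} (hs : 0 ≤ s) (hs1 : s < 1) :
    ((n : ℝ) + 1) ^ (-s) * (n.factorial : ℝ) ≤ Real.Gamma ((n : ℝ) + 1 - s) := by
  have hn0 : (0 : ℝ) ≤ n := Nat.cast_nonneg n
  have hG : Real.Gamma ((n : ℝ) + 1) = n.factorial := Real.Gamma_nat_eq_factorial n
  have hf : (0 : ℝ) < n.factorial := by positivity
  have hx : 0 < (n : ℝ) + 1 - s := by linarith
  have hGx : 0 < Real.Gamma ((n : ℝ) + 1 - s) := Real.Gamma_pos_of_pos hx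
  rcases eq_or_lt_of_le hs with h0 | h0
  · rw [← h0]
    simp [hG]
  have h := Real.Gamma_mul_add_mul_le_rpow_Gamma_mul_rpow_Gamma (s := (n : ℝ) + 1 - s)
    (t := (n : ℝ) + 1 - s + 1) (a := 1 - s) (b := s) hx (by linarith) (by linarith) h0 (by ring)
  have e : (1 - s) * ((n : ℝ) + 1 - s) + s * ((n : ℝ) + 1 - s + 1) = (n : ℝ) + 1 := by ring
  rw [e, hG, Real.Gamma_add_one hx.ne', Real.mul_rpow hx.le hGx.le] at h
  have h2 : Real.Gamma ((n : ℝ) + 1 - s) ^ (1 - s) *
      (((n : ℝ) + 1 - s) ^ s * Real.Gamma ((n : ℝ) + 1 - s) ^ s) =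
      Real.Gamma ((n : ℝ) + 1 - s) * ((n : ℝ) + 1 - s) ^ s := by
    have : Real.Gamma ((n : ℝ) + 1 - s) ^ (1 - s) * Real.Gamma ((n : ℝ) + 1 - s) ^ s =
        Real.Gamma ((n : ℝ) + 1 - s) := by
      rw [← Real.rpow_add hGx]
      have e1 : 1 - s + s = 1 := by ring
      rw [e1, Real.rpow_one]
    calc _ = (Real.Gamma ((n : ℝ) + 1 - s) ^ (1 - s) * Real.Gamma ((n : ℝ) + 1 - s) ^ s) *
          ((n : ℝ) + 1 - s) ^ s := by ring
      _ = _ := by rw [this]
  rw [h2] at h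
  have h3 : ((n : ℝ) + 1 - s) ^ s ≤ ((n : ℝ) + 1) ^ s :=
    Real.rpow_le_rpow hx.le (by linarith) hs
  have h4 : (n.factorial : ℝ) ≤ Real.Gamma ((n : ℝ) + 1 - s) * ((n : ℝ) + 1) ^ s :=
    h.trans (mul_le_mul_of_nonneg_left h3 hGx.le)
  rw [Real.rpow_neg (by linarith)]
  have h5 : 0 < ((n : ℝ) + 1) ^ s := Real.rpow_pos_of_pos (by linarith) s
  rw [inv_mul_le_iff₀ h5]
  linarith

/-- The product is between two powers. -/
lemma prod_bounds {n : ℕ} (hn : 1 ≤ n) {s : ℝ} (hs : 0 ≤ s) (hs1 : s ≤ 1) :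
    ((n : ℝ) + 1) ^ (-s) * ff s ≤ ∏ b ∈ range n, (1 - s / ((b : ℝ) + 1)) ∧
    ∏ b ∈ range n, (1 - s / ((b : ℝ) + 1)) ≤ (n : ℝ) ^ (-s) * ff s := by
  rcases eq_or_lt_of_le hs1 with h1 | h1
  · have hf : ff s = 0 := by
      unfold ff
      rw [h1, sub_self, Real.Gamma_zero, inv_zero]
    have hp : ∏ b ∈ range n, (1 - s / ((b : ℝ) + 1)) = 0 := by
      apply Finset.prod_eq_zero (Finset.mem_range.mpr (by omega : 0 < n))
      rw [h1]
      simp
    rw [hf, hp]
    simp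
  · have hG : 0 < Real.Gamma (1 - s) := Real.Gamma_pos_of_pos (by linarith)
    have hfac : (n.factorial : ℝ) = ∏ b ∈ range n, ((b : ℝ) + 1) := by
      have : ((n.factorial : ℕ) : ℝ) = ((∏ b ∈ range n, (b + 1) : ℕ) : ℝ) := by
        rw [Finset.prod_range_add_one_eq_factorial]
      rw [this]
      push_cast
      rfl
    have hf0 : (0 : ℝ) < n.factorial := by positivity
    have hp : ∏ b ∈ range n, (1 - s / ((b : ℝ) + 1)) =
        Real.Gamma ((n : ℝ) + 1 - s) / (n.factorial : ℝ) * ff s := by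
      rw [Gamma_prod n h1, hfac]
      unfold ff
      rw [mul_div_right_comm, ← Finset.prod_div_distrib, mul_assoc, mul_inv_cancel₀ hG.ne', mul_one]
      refine Finset.prod_congr rfl fun b _ => ?_
      have : (0 : ℝ) < (b : ℝ) + 1 := by positivity
      field_simp
    have hff := ff_nonneg hs1
    rw [hp]
    constructor
    · apply mul_le_mul_of_nonneg_right _ hff
      rw [le_div_iff₀ hf0]
      exact Gamma_lower n hs h1
    · apply mul_le_mul_of_nonneg_right _ hff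
      rw [div_le_iff₀ hf0]
      exact Gamma_upper hn hs hs1

/-- `J(x) = ∫_0^1 s x^{-s} / Γ(1 - s) ds`. -/
noncomputable def JJ (x : ℝ) : ℝ := ∫ s in (0 : ℝ)..1, s * (x ^ (-s) * (Real.Gamma (1 - s))⁻¹)

lemma cont_J {x : ℝ} (hx : 0 < x) : Continuous fun s : ℝ => s * (x ^ (-s) * ff s) := by
  have h1 : Continuous fun s : ℝ => x ^ (-s) :=
    Continuous.rpow continuous_const continuous_neg (fun _ => Or.inl hx.ne')
  exact continuous_id.mul (h1.mul ff_continuous)

lemma II_bounds {n : ℕ} (hn : 1 ≤ n) :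
    JJ ((n : ℝ) + 1) ≤ ∫ s in (0 : ℝ)..1, s * ∏ b ∈ range n, (1 - s / ((b : ℝ) + 1)) ∧
    ∫ s in (0 : ℝ)..1, s * ∏ b ∈ range n, (1 - s / ((b : ℝ) + 1)) ≤ JJ (n : ℝ) := by
  have hn0 : (0 : ℝ) < n := by exact_mod_cast hn
  have hc : Continuous fun s : ℝ => s * ∏ b ∈ range n, (1 - s / ((b : ℝ) + 1)) := by fun_prop
  constructor
  · apply intervalIntegral.integral_mono_on (by norm_num)
    · exact (cont_J (by linarith : (0 : ℝ) < (n : ℝ) + 1)).intervalIntegrable _ _
    · exact hc.intervalIntegrable _ _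
    · intro s hs
      exact mul_le_mul_of_nonneg_left (prod_bounds hn hs.1 hs.2).1 hs.1
  · apply intervalIntegral.integral_mono_on (by norm_num)
    · exact hc.intervalIntegrable _ _
    · exact (cont_J hn0).intervalIntegrable _ _
    · intro s hs
      exact mul_le_mul_of_nonneg_left (prod_bounds hn hs.1 hs.2).2 hs.1

/-- Neighbouring values. -/
lemma JJ_step {x : ℝ} (hx : 0 < x) : JJ x ≤ (1 + 1 / x) * JJ (x + 1) := by
  unfold JJ
  rw [← intervalIntegral.integral_const_mul]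
  apply intervalIntegral.integral_mono_on (by norm_num)
  · exact (cont_J hx).intervalIntegrable _ _
  · exact ((cont_J (by linarith : 0 < x + 1)).const_mul _).intervalIntegrable _ _
  · intro s hs
    have h1 : x ^ (-s) ≤ (1 + 1 / x) * (x + 1) ^ (-s) := by
      have e : (1 + 1 / x) = (x + 1) / x := by field_simp
      have h2 : ((x + 1) / x) ^ s ≤ ((x + 1) / x) ^ (1 : ℝ) := by
        apply Real.rpow_le_rpow_of_exponent_le _ hs.2
        rw [le_div_iff₀ hx]
        linarith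
      rw [Real.rpow_one, Real.div_rpow (by linarith) hx.le] at h2
      rw [e, Real.rpow_neg hx.le, Real.rpow_neg (by linarith)]
      have p1 : 0 < x ^ s := Real.rpow_pos_of_pos hx s
      have p2 : 0 < (x + 1) ^ s := Real.rpow_pos_of_pos (by linarith) s
      rw [div_le_iff₀ p1] at h2
      rw [inv_eq_one_div, inv_eq_one_div, mul_one_div, div_le_div_iff₀ p1 p2]
      linarith
    have hff := ff_nonneg hs.2
    have h3 : x ^ (-s) * ff s ≤ ((1 + 1 / x) * (x + 1) ^ (-s)) * ff s :=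
      mul_le_mul_of_nonneg_right h1 hff
    calc s * (x ^ (-s) * (Real.Gamma (1 - s))⁻¹) ≤ s * (((1 + 1 / x) * (x + 1) ^ (-s)) * ff s) :=
          mul_le_mul_of_nonneg_left h3 hs.1
      _ = _ := by
        unfold ff
        ring

lemma JJ_nonneg {x : ℝ} (hx : 0 < x) : 0 ≤ JJ x := by
  unfold JJ
  apply intervalIntegral.integral_nonneg (by norm_num)
  intro s hs
  have := ff_nonneg hs.2
  unfold ff at this
  have h1 : 0 < x ^ (-s) := Real.rpow_pos_of_pos hx _
  exact mul_nonneg hs.1 (mul_nonneg h1.le this)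

end Pool.Agent.Y14.EC
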