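import Pool.Agent.Y14.EC.Exp
import Pool.Agent.TH187.EC.An5

set_option autoImplicit false
set_option linter.unusedSectionVars false

namespace Pool.Agent.Y14.EC

open Finset MeasureTheory intervalIntegral Set Filter Topology Pool.Agent.TH187.EC

lemma II_eq (n : ℕ) : II n = ∫ s in (0 : ℝ)..1, s * ∏ b ∈ range n, (1 - s / ((b : ℝ) + 1)) := rfl

/-- The normalised Euler characteristic. -/
noncomputable def nu (g : ℕ) : ℝ :=
  -((chi g : ℚ) : ℝ) * (2 * (g : ℝ) - 1) ^ 3 / ((2 * g - 1).factorial : ℝ)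

lemma nu_eq (g : ℕ) (hg : 1 ≤ g) : nu g = ag g := by
  have hgR : (1 : ℝ) ≤ g := by exact_mod_cast hg
  have hN : (2 * (g : ℝ) - 1) ≠ 0 := by linarith
  have hf : ((2 * g - 2).factorial : ℝ) ≠ 0 := by positivity
  unfold nu
  rw [neg_chi_eq g hg, fact_eq g hg]
  field_simp

lemma JJ_pos {g : ℕ} (hg : 2 ≤ g) :
    1 / (12 * (2 * (g : ℝ) - 2)) ≤ JJ (2 * (g : ℝ) - 1) := by
  have hgR : (2 : ℝ) ≤ g := by exact_mod_cast hg
  have hnR : ((2 * g - 2 : ℕ) : ℝ) = 2 * (g : ℝ) - 2 := by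
    rw [Nat.cast_sub (by omega)]; push_cast; ring
  have h1 := (II_bounds (n := 2 * g - 2) (by omega)).2
  have h2 := le_II (2 * g - 2) (by omega)
  have h3 := JJ_step (x := 2 * (g : ℝ) - 2) (by linarith)
  rw [← II_eq] at h1
  rw [hnR] at h1 h2
  have e : 2 * (g : ℝ) - 2 + 1 = 2 * (g : ℝ) - 1 := by ring
  rw [e] at h3
  have h4 : 1 + 1 / (2 * (g : ℝ) - 2) ≤ 2 := by
    have : 1 / (2 * (g : ℝ) - 2) ≤ 1 := by
      rw [div_le_one (by linarith)]
      linarith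
    linarith
  have h5 := JJ_nonneg (x := 2 * (g : ℝ) - 1) (by linarith)
  have h6 : (1 + 1 / (2 * (g : ℝ) - 2)) * JJ (2 * (g : ℝ) - 1) ≤ 2 * JJ (2 * (g : ℝ) - 1) :=
    mul_le_mul_of_nonneg_right h4 h5
  have h7 : 1 / (12 * (2 * (g : ℝ) - 2)) = (1 / (6 * (2 * (g : ℝ) - 2))) / 2 := by
    have : 2 * (g : ℝ) - 2 ≠ 0 := by linarith
    field_simp
    norm_num
  rw [h7]
  linarith

lemma er_small : ∃ C : ℝ, 0 ≤ C ∧ ∀ g : ℕ, 2 ≤ g → er g ≤ C / g * JJ (2 * (g : ℝ) - 1) := by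
  have ht : Tendsto (fun n : ℕ => (n : ℝ) ^ 4 * (1 / 4 : ℝ) ^ n) atTop (𝓝 0) :=
    tendsto_pow_const_mul_const_pow_of_abs_lt_one 4 (by rw [abs_of_pos] <;> norm_num)
  obtain ⟨B, hB⟩ := ht.bddAbove_range
  have hB' : ∀ g : ℕ, (g : ℝ) ^ 4 * (1 / 4) ^ g ≤ B := fun g => hB ⟨g, rfl⟩
  have hB0 : 0 ≤ B := le_trans (by positivity) (hB' 0)
  refine ⟨100 * (12 * B), by positivity, fun g hg => ?_⟩
  have hgR : (2 : ℝ) ≤ g := by exact_mod_cast hg
  have h1 := JJ_pos hg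
  have h2 : er g ≤ 100 * (12 * B) / g * (1 / (12 * (2 * (g : ℝ) - 2))) := by
    unfold er
    have h3 := hB' g
    have h4 : (4 : ℝ) ^ g = 4 * 4 ^ (g - 1) := by
      obtain ⟨k, rfl⟩ : ∃ k, g = k + 1 := ⟨g - 1, by omega⟩
      simp [pow_succ]
      ring
    have h5 : (0 : ℝ) < 4 ^ (g - 1) := by positivity
    rw [one_div, inv_pow, h4, ← div_eq_mul_inv, div_le_iff₀ (by positivity)] at h3
    have h6 : 0 < 2 * (g : ℝ) - 2 := by linarith
    have h7 : 100 * (12 * B) / g * (1 / (12 * (2 * (g : ℝ) - 2))) =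
        100 * B / (g * (2 * (g : ℝ) - 2)) := by
      field_simp
    rw [h7, div_le_div_iff₀ (by positivity) (by positivity)]
    have h8 : (2 * (g : ℝ) - 1) * (2 * g - 2) * (g * (2 * (g : ℝ) - 2)) ≤ 8 * (g : ℝ) ^ 4 := by
      have q1 : (2 * (g : ℝ) - 1) ≤ 2 * g := by linarith
      have q2 : (2 * (g : ℝ) - 2) ≤ 2 * g := by linarith
      have q3 : (2 * (g : ℝ) - 1) * (2 * g - 2) ≤ (2 * g) * (2 * g) :=
        mul_le_mul q1 q2 h6.le (by linarith)
      have q4 : (g : ℝ) * (2 * (g : ℝ) - 2) ≤ g * (2 * g) :=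
        mul_le_mul_of_nonneg_left q2 (by linarith)
      calc _ ≤ ((2 * (g : ℝ)) * (2 * g)) * (g * (2 * g)) :=
            mul_le_mul q3 q4 (mul_nonneg (by linarith) h6.le) (by positivity)
        _ = _ := by ring
    calc _ ≤ 8 * (g : ℝ) ^ 4 := h8
      _ ≤ 8 * (B * (4 * 4 ^ (g - 1))) := by linarith
      _ ≤ _ := by nlinarith [mul_nonneg hB0 h5.le]
  refine h2.trans ?_
  exact mul_le_mul_of_nonneg_left h1 (by positivity)

/-- Relative error `O(1/g)` for large genus. -/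
lemma rel_large : ∃ C : ℝ, 0 ≤ C ∧ ∀ g : ℕ, 5 ≤ g →
    |nu g - 2 * JJ (2 * (g : ℝ) - 1)| ≤ C / g * JJ (2 * (g : ℝ) - 1) := by
  obtain ⟨C, hC, her⟩ := er_small
  refine ⟨C + 200, by linarith, fun g hg => ?_⟩
  have hgR : (5 : ℝ) ≤ g := by exact_mod_cast hg
  have hnR : ((2 * g - 2 : ℕ) : ℝ) = 2 * (g : ℝ) - 2 := by
    rw [Nat.cast_sub (by omega)]; push_cast; ring
  have h1 := II_bounds (n := 2 * g - 2) (by omega)
  have h3 := JJ_step (x := 2 * (g : ℝ) - 2) (by linarith)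
  rw [← II_eq, hnR] at h1
  have e : 2 * (g : ℝ) - 2 + 1 = 2 * (g : ℝ) - 1 := by ring
  rw [e] at h1 h3
  have h4 := ag_bounds g hg
  rw [← nu_eq g (by omega)] at h4
  have h5 := tau_nonneg g hg
  have h6 := tau_le g hg
  have h7 := her g (by omega)
  have h8 := JJ_nonneg (x := 2 * (g : ℝ) - 1) (by linarith)
  set J := JJ (2 * (g : ℝ) - 1) with hJ
  have hg0 : (0 : ℝ) < g := by linarith
  have h9 : 1 / (2 * (g : ℝ) - 2) ≤ 1 / g := one_div_le_one_div_of_le hg0 (by linarith)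
  have h10 : II (2 * g - 2) ≤ (1 + 1 / g) * J :=
    (h1.2.trans h3).trans (mul_le_mul_of_nonneg_right (by linarith) h8)
  have h11 : II (2 * g - 2) ≤ 2 * J := by
    refine h10.trans (mul_le_mul_of_nonneg_right ?_ h8)
    have : 1 / (g : ℝ) ≤ 1 := by
      rw [div_le_one hg0]
      linarith
    linarith
  have h12 : tau g * II (2 * g - 2) ≤ (34 / g) * (2 * J) :=
    mul_le_mul h6 h11 (le_trans h8 h1.1) (by positivity)
  have e1 : (C + 200) / g * J = C / g * J + 200 * (1 / g * J) := by ring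
  have e2 : (34 / (g : ℝ)) * (2 * J) = 68 * (1 / g * J) := by ring
  have h13 : (1 + 1 / (g : ℝ)) * J = J + 1 / g * J := by ring
  have h14 : 0 ≤ 1 / (g : ℝ) * J := by positivity
  rw [e2] at h12
  rw [h13] at h10
  rw [e1, abs_le]
  constructor
  · nlinarith [h4.1, h1.1]
  · nlinarith [h4.2]

lemma extend {x y : ℕ → ℝ} {a b : ℕ} (hy : ∀ g, a ≤ g → 0 < y g) {C : ℝ}
    (h : ∀ g, b ≤ g → |x g| ≤ C * y g) : ∃ C' : ℝ, 0 < C' ∧ ∀ g, a ≤ g → |x g| ≤ C' * y g := by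
  refine ⟨|C| + 1 + ∑ g ∈ range b, |x g| / |y g|, ?_, fun g hg => ?_⟩
  · have : 0 ≤ ∑ g ∈ range b, |x g| / |y g| := Finset.sum_nonneg fun g _ => by positivity
    have := abs_nonneg C
    linarith
  · have hs : 0 ≤ ∑ g ∈ range b, |x g| / |y g| := Finset.sum_nonneg fun g _ => by positivity
    have hyg := hy g hg
    rcases le_or_gt b g with hb | hb
    · refine (h g hb).trans (mul_le_mul_of_nonneg_right ?_ hyg.le)
      have := le_abs_self C
      linarith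
    · have h1 : |x g| / |y g| ≤ ∑ g ∈ range b, |x g| / |y g| :=
        Finset.single_le_sum (f := fun g => |x g| / |y g|) (fun g _ => by positivity)
          (Finset.mem_range.mpr hb)
      rw [abs_of_pos hyg] at h1
      rw [div_le_iff₀ hyg] at h1
      refine h1.trans (mul_le_mul_of_nonneg_right ?_ hyg.le)
      have := abs_nonneg C
      linarith

lemma JJ_pos_all {g : ℕ} (hg : 1 ≤ g) : 0 < JJ (2 * (g : ℝ) - 1) := by
  rcases eq_or_lt_of_le hg with h | h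
  · -- g = 1
    subst h
    have h1 := (II_bounds (n := 1) le_rfl).2
    rw [← II_eq] at h1
    have h2 := le_II 1 le_rfl
    have e : 2 * ((1 : ℕ) : ℝ) - 1 = ((1 : ℕ) : ℝ) := by norm_num
    rw [e]
    refine lt_of_lt_of_le ?_ (h2.trans h1)
    norm_num
  · have h1 := JJ_pos (g := g) h
    have hgR : (2 : ℝ) ≤ g := by exact_mod_cast h
    refine lt_of_lt_of_le ?_ h1
    have : 0 < 2 * (g : ℝ) - 2 := by linarith
    positivity

/-- Relative error `O(1/g)` for all genera. -/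
theorem rel_all : ∃ C : ℝ, 0 < C ∧ ∀ g : ℕ, 1 ≤ g →
    |nu g - 2 * JJ (2 * (g : ℝ) - 1)| ≤ C / g * JJ (2 * (g : ℝ) - 1) := by
  obtain ⟨C, hC, h⟩ := rel_large
  have := extend (x := fun g : ℕ => nu g - 2 * JJ (2 * (g : ℝ) - 1))
    (y := fun g : ℕ => 1 / g * JJ (2 * (g : ℝ) - 1)) (a := 1) (b := 5) (C := C)
    (fun g hg => by
      have : (0 : ℝ) < g := by exact_mod_cast hg
      have := JJ_pos_all hg
      positivity)
    (fun g hg => by
      refine (h g hg).trans (le_of_eq ?_)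
      ring)
  obtain ⟨C', hC', h'⟩ := this
  refine ⟨C', hC', fun g hg => (h' g hg).trans (le_of_eq ?_)⟩
  ring

lemma JJ_exp {x : ℝ} (hx : 0 < x) :
    JJ x = ∫ s in (0 : ℝ)..1, s * (Real.exp (-(Real.log x * s)) * ff s) := by
  unfold JJ
  congr 1
  funext s
  rw [Real.rpow_def_of_pos hx]
  unfold ff
  congr 3
  ring

/-- Asymptotic expansion to all orders. -/
theorem expansion_chi (n : ℕ) : ∃ C : ℝ, 0 < C ∧ ∀ g : ℕ, 2 ≤ g →
    |nu g - 2 * ∑ k ∈ range (n + 1), ((k : ℝ) + 1) * Dk k / Real.log (2 * (g : ℝ) - 1) ^ (k + 2)| ≤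
      C / Real.log (2 * (g : ℝ) - 1) ^ (n + 3) := by
  obtain ⟨C₁, hC₁, h₁⟩ := rel_all
  obtain ⟨C₂, hC₂, h₂⟩ := expansion n
  obtain ⟨C₃, hC₃, h₃⟩ := expansion 0
  refine ⟨C₁ * (1 + C₃) * (2 * ((n + 3).factorial : ℝ)) + 2 * C₂ + 1, by positivity,
    fun g hg => ?_⟩
  have hgR : (2 : ℝ) ≤ g := by exact_mod_cast hg
  set x : ℝ := 2 * (g : ℝ) - 1 with hx
  have hx3 : 3 ≤ x := by rw [hx]; linarith
  have hx0 : 0 < x := by linarith
  have hL : 1 ≤ Real.log x := by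
    rw [Real.le_log_iff_exp_le hx0]
    have := Real.exp_one_lt_d9
    linarith
  have hL0 : 0 < Real.log x := by linarith
  have a1 := h₁ g (by omega)
  have a2 := h₂ _ hL
  have a3 := h₃ _ hL
  rw [← JJ_exp hx0] at a2 a3
  have hJ0 := JJ_nonneg hx0
  have a4 : JJ x ≤ 1 + C₃ := by
    have b1 : ∑ k ∈ range (0 + 1), ((k : ℝ) + 1) * Dk k / Real.log x ^ (k + 2) =
        1 / Real.log x ^ 2 := by
      simp [Dk_zero]
    rw [b1] at a3
    have b2 := (abs_le.mp a3).2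
    have b3 : 1 / Real.log x ^ 2 ≤ 1 := by
      rw [div_le_one (by positivity)]
      exact one_le_pow₀ hL
    have b4 : C₃ / Real.log x ^ (0 + 3) ≤ C₃ := div_le_self hC₃ (one_le_pow₀ hL)
    linarith
  have hg0 : (0 : ℝ) < g := by linarith
  have a5 : 1 / (g : ℝ) ≤ 2 * ((n + 3).factorial : ℝ) / Real.log x ^ (n + 3) := by
    have c1 := exp_neg_le (n + 3) hL
    rw [Real.exp_neg, Real.exp_log hx0] at c1
    have c2 : 1 / (g : ℝ) ≤ 2 * x⁻¹ := by
      rw [← div_eq_mul_inv, div_le_div_iff₀ hg0 hx0, hx]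
      linarith
    calc 1 / (g : ℝ) ≤ 2 * x⁻¹ := c2
      _ ≤ 2 * (((n + 3).factorial : ℝ) / Real.log x ^ (n + 3)) := by linarith
      _ = _ := by ring
  have a6 : C₁ / g * JJ x ≤
      C₁ * (1 + C₃) * (2 * ((n + 3).factorial : ℝ)) / Real.log x ^ (n + 3) := by
    have d1 : C₁ / g * JJ x = C₁ * (1 / g) * JJ x := by ring
    rw [d1]
    calc C₁ * (1 / (g : ℝ)) * JJ x ≤
          C₁ * (2 * ((n + 3).factorial : ℝ) / Real.log x ^ (n + 3)) * (1 + C₃) :=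
          mul_le_mul (mul_le_mul_of_nonneg_left a5 hC₁.le) a4 hJ0 (by positivity)
      _ = _ := by ring
  have tri := abs_sub_le (nu g) (2 * JJ x)
    (2 * ∑ k ∈ range (n + 1), ((k : ℝ) + 1) * Dk k / Real.log x ^ (k + 2))
  have a7 : |2 * JJ x - 2 * ∑ k ∈ range (n + 1), ((k : ℝ) + 1) * Dk k / Real.log x ^ (k + 2)| ≤
      2 * (C₂ / Real.log x ^ (n + 3)) := by
    rw [← mul_sub, abs_mul, abs_of_pos (by norm_num : (0 : ℝ) < 2)]
    linarith
  have a8 : 0 ≤ 1 / Real.log x ^ (n + 3) := by positivity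
  calc _ ≤ _ := tri
    _ ≤ C₁ * (1 + C₃) * (2 * ((n + 3).factorial : ℝ)) / Real.log x ^ (n + 3) +
        2 * (C₂ / Real.log x ^ (n + 3)) + 1 / Real.log x ^ (n + 3) := by linarith
    _ = _ := by ring

end Pool.Agent.Y14.EC
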